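import Pool.Agent.H16.STR.Lit
import Pool.Agent.H46.TE.Ful
import Pool.Agent.H74.STAT.NNo
import Pool.Agent.H73.D2.Tvb

/-!
# The images are full

`img_lab`: two labels of one window, the second over the coordinates of the first and the first
coordinate, and a closed coefficient: the combination is a label of the second coordinate. `imN_fuf`:
`ImN` from the fullness of the digits of the second coordinate alone.
-/

set_option autoImplicit false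

namespace Pool.STR65

open Finset Real MvPolynomial
open Pool.Agent.H49.Ent Pool.Agent.H32.Dense
open Pool.STK hiding pr2
open Pool.KA Pool.KSAT Pool.K2S Pool.PB Pool.S6C
open Pool.GEN Pool.LA91 Pool.RCD Pool.OWN68
open Pool.V0F (cR mx_cR)
open Pool.UNJ (ceI)
open Pool.TE46 (Fuf rp_pos rp_add rp_mono one_rp)
open Pool.STR16 (OkT hK hT ImN)
open Pool.ALT (xa)

variable {m J : ℕ}

/-- The polynomial of the image. -/
noncomputable def imG {V₁ V₂ U : Type} (κ₁ : Fin m) (f : U → ℝ)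
    (G₁ : V₁ → MvPolynomial (Option (Fin m)) ℝ) (G₂ : V₂ → MvPolynomial (Option (Fin m)) ℝ)
    (v : V₁ × (V₂ × U)) : MvPolynomial (Option (Fin m)) ℝ :=
  G₂ v.2.1 + C (f v.2.2) * (X (some κ₁) - G₁ v.1)

/-- **The label of the image.** -/
theorem img_lab {F : Fam m J} {I I₂ : Finset (Fin m)} {κ₁ κ₂ : Fin m}
    {K K₂ e₁ e₂ W ρ₁ ρ₂ P₁ P₂ : ℕ} {A : F.Ω → Prop} {V₁ V₂ U : Type} {z₁ : PtT F → V₁}
    {z₁' : LnT F → V₁} {z₂ : PtT F → V₂} {z₂' : LnT F → V₂}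
    {G₁ : V₁ → MvPolynomial (Option (Fin m)) ℝ} {G₂ : V₂ → MvPolynomial (Option (Fin m)) ℝ}
    (h₁ : LbOK F I κ₁ K e₁ J W ρ₁ P₁ A z₁ z₁' G₁)
    (h₂ : LbOK F I₂ κ₂ K₂ e₂ J W ρ₂ P₂ A z₂ z₂' G₂) (hI : I ⊆ I₂) (hκ : κ₁ ∈ I₂)
    {k₀ : PtT F → U} {k : LnT F → U} (hk : ∀ ω, A ω → k₀ (ptr F J ω) = k (slam F W ω))
    {f : U → ℝ} {Bf : ℝ} (hf : ∀ ω, A ω → |f (k (slam F W ω))| ≤ Bf)
    {K' e ρ P : ℕ} (hK : K ≤ K') (hK2 : K₂ ≤ K') (hK1 : 1 ≤ K') (hρ₁ : ρ₁ ≤ ρ) (hρ₂ : ρ₂ ≤ ρ)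
    (hP : (1 : ℝ) / 2 ^ P₂ + Bf * (1 / 2 ^ P₁) ≤ 1 / 2 ^ P)
    (he : (2 : ℝ) ^ e₂ + Bf * (1 + 2 ^ e₁) ≤ 2 ^ e) :
    LbOK F I₂ κ₂ K' e J W ρ P A (fun p => (z₁ p, (z₂ p, k₀ p))) (fun s => (z₁' s, (z₂' s, k s)))
      (imG κ₁ f G₁ G₂) := by
  refine ⟨fun v => ?_, fun v b b' hn hb => ?_, fun ω hω => Prod.ext (h₁.cls ω hω)
    (Prod.ext (h₂.cls ω hω) (hk ω hω)), fun ω hω => ?_, fun ω hω => ?_, fun ω hω b hb o => ?_⟩
  · unfold imG
    refine (totalDegree_add _ _).trans (max_le ((h₂.deg v.2.1).trans hK2) ?_)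
    refine (totalDegree_mul _ _).trans ?_
    rw [totalDegree_C, zero_add]
    refine (totalDegree_sub _ _).trans (max_le ?_ ((h₁.deg v.1).trans hK))
    rw [totalDegree_X]
    exact hK1
  · unfold imG
    simp only [map_add, map_mul, map_sub, eval_C, eval_X]
    rw [h₂.dep v.2.1 b b' hn hb, h₁.dep v.1 b b' hn fun i hi => hb i (hI hi), hb κ₁ hκ]
  · have a1 := h₁.pos ω hω
    have a2 := h₂.pos ω hω
    have a3 := hf ω hω
    have e1 : F.x ω κ₂ - eval (bt F ω) (imG κ₁ f G₁ G₂ (z₁' (slam F W ω), (z₂' (slam F W ω),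
        k (slam F W ω)))) =
        (F.x ω κ₂ - eval (bt F ω) (G₂ (z₂' (slam F W ω)))) - f (k (slam F W ω)) *
          (F.x ω κ₁ - eval (bt F ω) (G₁ (z₁' (slam F W ω)))) := by
      unfold imG
      simp only [map_add, map_mul, map_sub, eval_C, eval_X]
      show _ - (_ + _ * (F.x ω κ₁ - _)) = _
      ring
    show |F.x ω κ₂ - eval (bt F ω) (imG κ₁ f G₁ G₂ (z₁' (slam F W ω), (z₂' (slam F W ω),
        k (slam F W ω))))| ≤ _
    rw [e1]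
    refine (abs_sub _ _).trans (le_trans (add_le_add a2 ?_) hP)
    rw [abs_mul]
    exact mul_le_mul a3 a1 (abs_nonneg _) ((abs_nonneg _).trans a3)
  · have a1 := h₁.vel ω hω
    have a2 := h₂.vel ω hω
    have a3 := hf ω hω
    have e1 : F.d ω κ₂ - ∑ o, bd F ω o * eval (bt F ω)
          (pderiv o (imG κ₁ f G₁ G₂ (z₁' (slam F W ω), (z₂' (slam F W ω), k (slam F W ω))))) =
        (F.d ω κ₂ - ∑ o, bd F ω o * eval (bt F ω) (pderiv o (G₂ (z₂' (slam F W ω))))) -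
          f (k (slam F W ω)) * (F.d ω κ₁ -
            ∑ o, bd F ω o * eval (bt F ω) (pderiv o (G₁ (z₁' (slam F W ω))))) := by
      have e2 : ∀ o, bd F ω o * eval (bt F ω)
          (pderiv o (imG κ₁ f G₁ G₂ (z₁' (slam F W ω), (z₂' (slam F W ω), k (slam F W ω))))) =
          bd F ω o * eval (bt F ω) (pderiv o (G₂ (z₂' (slam F W ω)))) +
            (f (k (slam F W ω)) * (bd F ω o * (if o = some κ₁ then 1 else 0)) -
            f (k (slam F W ω)) * (bd F ω o *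
              eval (bt F ω) (pderiv o (G₁ (z₁' (slam F W ω)))))) := by
        intro o
        have e3 : eval (bt F ω) (pderiv o (X (some κ₁) : MvPolynomial (Option (Fin m)) ℝ)) =
            if o = some κ₁ then 1 else 0 := by
          by_cases ho : o = some κ₁
          · rw [if_pos ho, ho, pderiv_X_self, map_one]
          · rw [if_neg ho, pderiv_X_of_ne (Ne.symm ho), map_zero]
        unfold imG
        rw [map_add, Derivation.leibniz, pderiv_C, map_sub]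
        simp only [smul_eq_mul, mul_zero, add_zero, map_add, map_mul, map_sub, eval_C, e3]
        ring
      simp only [e2]
      rw [Finset.sum_add_distrib, Finset.sum_sub_distrib, ← Finset.mul_sum, ← Finset.mul_sum]
      have e4 : ∑ o, bd F ω o * (if o = some κ₁ then (1 : ℝ) else 0) = F.d ω κ₁ := by
        simp only [mul_ite, mul_one, mul_zero]
        rw [Finset.sum_ite_eq' Finset.univ (some κ₁)]
        simp [bd]
      rw [e4]
      ring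
    show |F.d ω κ₂ - ∑ o, bd F ω o * eval (bt F ω)
          (pderiv o (imG κ₁ f G₁ G₂ (z₁' (slam F W ω), (z₂' (slam F W ω), k (slam F W ω)))))| ≤ _
    rw [e1]
    refine (abs_sub _ _).trans ?_
    rw [abs_mul]
    have a4 := mul_le_mul a3 a1 (abs_nonneg _) ((abs_nonneg _).trans a3)
    have a5 := mul_le_mul_of_nonneg_left hP (by positivity : (0 : ℝ) ≤ 2 ^ W)
    have e6 : (2 : ℝ) ^ W * (1 / 2 ^ P₂ + Bf * (1 / 2 ^ P₁)) =
        2 ^ W / 2 ^ P₂ + Bf * (2 ^ W / 2 ^ P₁) := by ring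
    have e7 : (2 : ℝ) ^ W * (1 / 2 ^ P) = 2 ^ W / 2 ^ P := by ring
    rw [e6, e7] at a5
    linarith
  · have b1 := h₁.lip ω hω b (fun o => (hb o).trans (inv_mono hρ₁)) o
    have b2 := h₂.lip ω hω b (fun o => (hb o).trans (inv_mono hρ₂)) o
    have a3 := hf ω hω
    have e3 : |eval b (pderiv o (X (some κ₁) : MvPolynomial (Option (Fin m)) ℝ))| ≤ 1 := by
      by_cases ho : o = some κ₁
      · rw [ho, pderiv_X_self, map_one, abs_one]
      · rw [pderiv_X_of_ne (Ne.symm ho), map_zero, abs_zero]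
        exact zero_le_one
    have e1 : eval b (pderiv o (imG κ₁ f G₁ G₂ (z₁' (slam F W ω), (z₂' (slam F W ω),
        k (slam F W ω))))) =
        eval b (pderiv o (G₂ (z₂' (slam F W ω)))) + f (k (slam F W ω)) *
          (eval b (pderiv o (X (some κ₁) : MvPolynomial (Option (Fin m)) ℝ)) -
            eval b (pderiv o (G₁ (z₁' (slam F W ω))))) := by
      unfold imG
      rw [map_add, Derivation.leibniz, pderiv_C, map_sub]
      simp only [smul_eq_mul, mul_zero, add_zero, map_add, map_mul, map_sub, eval_C]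
    show |eval b (pderiv o (imG κ₁ f G₁ G₂ (z₁' (slam F W ω), (z₂' (slam F W ω),
        k (slam F W ω)))))| ≤ _
    rw [e1]
    refine (abs_add_le _ _).trans (le_trans (add_le_add b2 ?_) he)
    rw [abs_mul]
    refine mul_le_mul a3 ?_ (abs_nonneg _) ((abs_nonneg _).trans a3)
    exact (abs_sub _ _).trans (add_le_add e3 b1)

/-- The own height over the label of the image. -/
theorem img_hgt {F : Fam m J} {κ₁ κ₂ : Fin m} {W : ℕ} {V₁ V₂ U : Type} {z₁' : LnT F → V₁}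
    {z₂' : LnT F → V₂} {G₁ : V₁ → MvPolynomial (Option (Fin m)) ℝ}
    {G₂ : V₂ → MvPolynomial (Option (Fin m)) ℝ} {k : LnT F → U} {f : U → ℝ} (ω : F.Ω) :
    hgt F κ₂ (fun s => (z₁' s, (z₂' s, k s))) W (imG κ₁ f G₁ G₂) ω =
      hgt F κ₂ z₂' W G₂ ω - f (k (slam F W ω)) * hgt F κ₁ z₁' W G₁ ω := by
  rw [hgt_eq, hgt_eq, hgt_eq]
  unfold imG
  simp only [map_add, map_mul, map_sub, eval_C, eval_X]
  show _ - (_ + _ * (F.x ω κ₁ - _)) = _
  ring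

/-- Digits to `s` from digits to `t`, `s ≤ t + μ`. -/
theorem dig_few {Ω C : Type} [Fintype Ω] {q : Ω → ℝ} (hq : IsLaw q) (x : Ω → ℝ) {s t μ : ℝ}
    (hμ : 0 ≤ μ) (hst : s ≤ t + μ) (Y : Ω → C)
    (hY : ∀ ω ω', 0 < q ω → 0 < q ω' → Y ω = Y ω' → ⌊(2 : ℝ) ^ t * x ω⌋ = ⌊(2 : ℝ) ^ t * x ω'⌋) :
    CH q (fun ω => ⌊(2 : ℝ) ^ s * x ω⌋) Y ≤ μ * Real.log 2 + (Real.log 5 + Real.log 7) := by
  have h1 := Pool.AJX.ch_fine hq (fun ω => (2 : ℝ) ^ s * x ω) Y (E := (2 : ℝ) ^ μ) (one_rp hμ)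
  have e1 : ∀ ω, (2 : ℝ) ^ s * x ω / (2 : ℝ) ^ μ = (2 : ℝ) ^ (s - μ) * x ω := fun ω => by
    rw [Real.rpow_sub (by norm_num)]
    ring
  simp only [e1] at h1
  rw [Real.log_rpow (by norm_num)] at h1
  have h2 := Pool.ALT.fl_few hq x (rp_pos (s - μ)).le (rp_mono (show s - μ ≤ t by linarith)) Y hY
  linarith

/-- **The images are full**, from the fullness of the digits of the second place alone: `a` the
window of the labels, `v` the window of the record. -/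
theorem imN_fuf {S : PCl m} (hpos : ∀ (τ : ℝ) (J : ℕ) (F : Fam m J) (A : F.Ω → Prop),
      S.St τ J F A → 0 < Pe F.p A) {c : ℕ → Fin m} {k D K' : ℕ} {sn : ℕ → ℝ → ℝ}
    {a φ ρ₀ room v P κ eF ρF πF s₀ s₁ d μ μ₁ μ₂ ϖ : ℝ} {e₀ : ℕ → ℝ}
    (HF : Fuf S ((range (k + 1)).image c) ((range k).image c) (c (k + 1)) K' eF ρF πF a v s₀ s₁ d)
    (hD : D ≤ K') (hK1 : 1 ≤ K') (hϖ : 0 < ϖ) (hμ : 0 < μ) (hμ₁ : 0 ≤ μ₁) (hμ₂ : 0 ≤ μ₂)
    (he₀ : 0 ≤ e₀ k) (he₁ : 0 ≤ e₀ (k + 1)) (hρ : ρ₀ ≤ ρF)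
    (c1 : e₀ (k + 1) + μ ≤ eF)
    (c2 : room + sn k a - sn (k + 1) a + e₀ k + μ ≤ eF) (c3 : max 0 πF + φ + μ ≤ sn (k + 1) a)
    (c4 : max 0 πF + room + φ + μ ≤ sn (k + 1) a) (c5 : sn (k + 1) v ≤ s₀ + μ₁)
    (c6 : s₁ ≤ P + μ₂)
    (c7 : (P - sn (k + 1) v) * Real.log 2 - κ + (μ₁ + μ₂) * Real.log 2 < d) :
    ImN S c k D a φ e₀ ρ₀ sn ϖ room v P κ := by
  have hlog : 0 < Real.log 2 := Real.log_pos (by norm_num)
  obtain ⟨δ, hδ⟩ : ∃ δ : ℝ, δ = d - ((P - sn (k + 1) v) * Real.log 2 - κ +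
    (μ₁ + μ₂) * Real.log 2) := ⟨_, rfl⟩
  have hδ0 : 0 < δ := by rw [hδ]; linarith
  obtain ⟨N₁, hN₁⟩ := exists_nat_ge (Real.log 6 / (μ * Real.log 2))
  obtain ⟨N₂, hN₂⟩ := exists_nat_ge (2 * (Real.log 5 + Real.log 7) / δ)
  refine Bas.mono (max N₁ N₂) (Pool.STAT.NL.Bas.frac (HF.and (pos_bas hpos)) hϖ) ?_
  rintro J hJ F A H Hl hOk B hB hBP V z z' hz K hKb Δ Y β hβ
  obtain ⟨HF', hB0⟩ := H B hB hBP
  have hJ0 : (0 : ℝ) ≤ J := Nat.cast_nonneg J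
  have j1 : (N₁ : ℝ) ≤ J := by exact_mod_cast (le_max_left _ _).trans hJ
  have j2 : (N₂ : ℝ) ≤ J := by exact_mod_cast (le_max_right _ _).trans hJ
  have h6 : (6 : ℝ) ≤ 2 ^ (μ * J) := by
    have h1 := hN₁.trans j1
    rw [div_le_iff₀ (by positivity)] at h1
    rw [← Real.log_le_log_iff (by norm_num) (rp_pos _), Real.log_rpow (by norm_num)]
    linarith
  have hcJ : 2 * (Real.log 5 + Real.log 7) ≤ δ * J := by
    have h1 := hN₂.trans j2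
    rw [div_le_iff₀ (by positivity)] at h1
    linarith
  obtain ⟨V₁, z₁, z₁', G₁, g1, g1'⟩ := hOk k le_rfl (Nat.le_succ k)
  obtain ⟨V₂, z₂, z₂', G₂, g2, g2'⟩ := hOk (k + 1) (Nat.le_succ k) le_rfl
  obtain ⟨kap, hkap⟩ : ∃ kap : ℝ, kap = room + sn k a - sn (k + 1) a := ⟨_, rfl⟩
  rw [← hkap] at c2 hKb
  obtain ⟨πm, hπm⟩ : ∃ πm : ℝ, πm = max 0 πF := ⟨_, rfl⟩
  have hπ0 : 0 ≤ πm := by rw [hπm]; exact le_max_left _ _
  have hπ1 : πF ≤ πm := by rw [hπm]; exact le_max_right _ _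
  rw [← hπm] at c3 c4
  have hf2 : ∀ x : ℝ, (1 : ℝ) / 2 ^ ⌊x * J⌋₊ ≤ 2 * 2 ^ (-(x * J)) := fun x => ip2_le (x * J)
  have hlab := img_lab (g1.sub hB) (g2.sub hB)
    (Finset.image_subset_image (Finset.range_subset_range.2 (Nat.le_succ k)))
    (mem_image_of_mem c (mem_range.2 (Nat.lt_succ_self k))) hz (f := K)
    (Bf := (2 : ℝ) ^ (kap * J)) hKb (K' := K') (e := ⌊eF * J⌋₊) (ρ := ⌊ρF * J⌋₊)
    (P := ⌊πF * J⌋₊) hD hD hK1
    (Nat.floor_le_floor (mul_le_mul_of_nonneg_right hρ hJ0))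
    (Nat.floor_le_floor (mul_le_mul_of_nonneg_right hρ hJ0)) (by
      have t1 : (2 : ℝ) ^ (-((sn (k + 1) a - φ) * J)) ≤ 2 ^ (-(πm * J)) * 2 ^ (-(μ * J)) := by
        rw [← rp_add]
        refine rp_mono ?_
        have := mul_le_mul_of_nonneg_right c3 hJ0
        linarith
      have t2 : (2 : ℝ) ^ (kap * J) * 2 ^ (-((sn k a - φ) * J)) ≤
          2 ^ (-(πm * J)) * 2 ^ (-(μ * J)) := by
        rw [← rp_add, ← rp_add]
        refine rp_mono ?_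
        rw [hkap]
        have := mul_le_mul_of_nonneg_right c4 hJ0
        linarith
      have t3 : (1 : ℝ) / 2 ^ ⌊(sn (k + 1) a - φ) * J⌋₊ ≤
          2 * (2 ^ (-(πm * J)) * 2 ^ (-(μ * J))) :=
        (hf2 _).trans (mul_le_mul_of_nonneg_left t1 (by norm_num))
      have t4 : (2 : ℝ) ^ (kap * J) * (1 / 2 ^ ⌊(sn k a - φ) * J⌋₊) ≤
          2 * (2 ^ (-(πm * J)) * 2 ^ (-(μ * J))) := by
        refine (mul_le_mul_of_nonneg_left (hf2 _) (rp_pos _).le).trans ?_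
        linarith
      have t5 : (6 : ℝ) * 2 ^ (-(μ * J)) ≤ 1 := by
        rw [Real.rpow_neg (by norm_num)]
        have := rp_pos (μ * J)
        rw [mul_inv_le_iff₀ this]
        linarith
      have t6 : (2 : ℝ) ^ (-(πm * J)) ≤ 1 / 2 ^ ⌊πF * J⌋₊ := by
        rw [Real.rpow_neg (by norm_num), ← one_div]
        refine one_div_le_one_div_of_le (by positivity) ?_
        have := p2_le (x := πm * J) (mul_nonneg hπ0 hJ0)
        refine le_trans (pow_le_pow_right₀ (by norm_num) (Nat.floor_le_floor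
          (mul_le_mul_of_nonneg_right hπ1 hJ0))) this
      have t7 := rp_pos (-(πm * J))
      have t8 := rp_pos (-(μ * J))
      have t9 : 4 * (2 ^ (-(πm * J)) * 2 ^ (-(μ * J))) ≤ (2 : ℝ) ^ (-(πm * J)) := by
        have := mul_le_mul_of_nonneg_left t5 t7.le
        nlinarith
      linarith) (by
      have u1 : (2 : ℝ) ^ ⌊e₀ k * J⌋₊ ≤ 2 ^ (e₀ k * J) := p2_le (mul_nonneg he₀ hJ0)
      have u0 : (2 : ℝ) ^ ⌊e₀ (k + 1) * J⌋₊ ≤ 2 ^ (e₀ (k + 1) * J) := p2_le (mul_nonneg he₁ hJ0)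
      have u2 : (1 : ℝ) ≤ 2 ^ (e₀ k * J) := one_rp (mul_nonneg he₀ hJ0)
      have u3 : (2 : ℝ) ^ (e₀ (k + 1) * J) * 2 ^ (μ * J) ≤ 2 ^ (eF * J) := by
        rw [← rp_add]
        refine rp_mono ?_
        have := mul_le_mul_of_nonneg_right c1 hJ0
        linarith
      have u4 : (2 : ℝ) ^ (kap * J) * 2 ^ (e₀ k * J) * 2 ^ (μ * J) ≤ 2 ^ (eF * J) := by
        rw [← rp_add, ← rp_add]
        refine rp_mono ?_
        have := mul_le_mul_of_nonneg_right c2 hJ0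
        linarith
      have u5 := hf2 eF
      have u6 : (2 : ℝ) ^ (eF * J) ≤ 2 * 2 ^ ⌊eF * J⌋₊ := by
        have a1 : (0 : ℝ) < 2 ^ ⌊eF * J⌋₊ := by positivity
        have a2 := rp_pos (eF * J)
        rw [Real.rpow_neg (by norm_num), ← div_eq_mul_inv, div_le_div_iff₀ a1 a2] at u5
        linarith
      have u7 := rp_pos (kap * J)
      have u8 := rp_pos (e₀ k * J)
      have u8' := rp_pos (e₀ (k + 1) * J)
      have u9 : (2 : ℝ) ^ (e₀ (k + 1) * J) * 6 ≤ 2 ^ (eF * J) :=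
        (mul_le_mul_of_nonneg_left h6 u8'.le).trans u3
      have u10 : (2 : ℝ) ^ (kap * J) * 2 ^ (e₀ k * J) * 6 ≤ 2 ^ (eF * J) :=
        (mul_le_mul_of_nonneg_left h6 (mul_pos u7 u8).le).trans u4
      have u11 : (2 : ℝ) ^ (kap * J) * (1 + 2 ^ ⌊e₀ k * J⌋₊) ≤
          2 * (2 ^ (kap * J) * 2 ^ (e₀ k * J)) := by
        have := mul_le_mul_of_nonneg_left (add_le_add u2 u1) u7.le
        linarith
      linarith)
  obtain ⟨⟨ψp, hψp⟩, ψ, hψ⟩ := (mx_cR (F := F) (A := B) hB0 v le_rfl).1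
  have hcl := isLaw_cond F.isLaw hB0
  have h0 := hcl.nonneg
  obtain ⟨q, hq⟩ : ∃ q : F.Ω → ℝ, q = Pool.Agent.H49.Ent.cond F.p B True := ⟨_, rfl⟩
  have hqB : ∀ ω, 0 < q ω → B ω := fun ω hω => by
    rw [hq] at hω
    exact of_cond_pos hω
  have hxa : ∀ s : ℝ, xa F (c (k + 1)) (fun s => (z₁' s, (z₂' s, z' s))) ⌊a * J⌋₊
      (imG (c k) K G₁ G₂) s = fun ω => ⌊(2 : ℝ) ^ (s * J) * hK c k ⌊a * J⌋₊ Hl z' K ω⌋ := by
    intro s
    funext ω
    unfold xa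
    rw [img_hgt]
    unfold hgt
    rw [g1', g2']
    rfl
  have key := HF' _ _ _ _ hlab _ ψp (fun s => ψ s) (fun ω hω => by
    rw [← hψp ω hω]
    exact hψ ω hω) Δ Y (β + (μ₁ * J * Real.log 2 + (Real.log 5 + Real.log 7)))
  rw [hxa, hxa, ← hq] at key
  rw [← hq] at hβ ⊢ h0 hcl
  obtain ⟨X, hX⟩ : ∃ X : F.Ω → ℝ, X = fun ω => hK c k ⌊a * J⌋₊ Hl z' K ω := ⟨_, rfl⟩
  have hXe : ∀ ω, hK c k ⌊a * J⌋₊ Hl z' K ω = X ω := fun ω => by rw [hX]
  simp only [hXe] at key hβ ⊢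
  have k1 := key (by
    obtain ⟨Rf, hRf⟩ : ∃ Rf : F.Ω → ℤ × (((V₁ × (V₂ × V)) × _) × ((Fin m → ℤ) × (ℕ × F.ζ))),
        Rf = fun ω => (⌊(2 : ℝ) ^ (s₀ * J) * X ω⌋, (((z₁' (slam F ⌊a * J⌋₊ ω),
          (z₂' (slam F ⌊a * J⌋₊ ω), z' (slam F ⌊a * J⌋₊ ω))), ψ (slam F ⌊v * J⌋₊ ω)),
          (ceI ((range k).image c) (fun _ => J) (F.x ω), F.W ω))) := ⟨_, rfl⟩
    show CH q Y (fun ω => (⌊(2 : ℝ) ^ (s₀ * J) * X ω⌋, (((z₁' (slam F ⌊a * J⌋₊ ω),
          (z₂' (slam F ⌊a * J⌋₊ ω), z' (slam F ⌊a * J⌋₊ ω))), ψ (slam F ⌊v * J⌋₊ ω)),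
          (ceI ((range k).image c) (fun _ => J) (F.x ω), F.W ω)))) ≤ _
    rw [← hRf]
    have m1 := CH_le_add h0 Y (fun ω => ⌊(2 : ℝ) ^ (sn (k + 1) v * J) * X ω⌋) Rf
    have m2 := dig_few hcl X (s := sn (k + 1) v * J) (t := s₀ * J) (μ := μ₁ * J)
      (mul_nonneg hμ₁ hJ0) (by
        have := mul_le_mul_of_nonneg_right c5 hJ0
        linarith) Rf (fun ω ω' _ _ e => by
        rw [hRf] at e
        exact (Prod.ext_iff.mp e).1)
    have m3 : CH q Y (fun ω => (⌊(2 : ℝ) ^ (sn (k + 1) v * J) * X ω⌋, Rf ω)) ≤ β := by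
      refine le_trans (CH_mono_cond h0 fun ω ω' hω hω' e => ?_) hβ
      rw [hRf] at e
      simp only [Prod.mk.injEq] at e ⊢
      obtain ⟨e1, e2, ⟨⟨e3, e4, e5⟩, e6⟩, e7⟩ := e
      refine ⟨e1, ⟨⟨?_, ?_⟩, e5⟩, ?_, e7⟩
      · rw [← g1', ← g1', e3]
      · rw [← g2', ← g2', e4]
      · have b1 := hψ ω (hqB ω hω)
        have b2 := hψ ω' (hqB ω' hω')
        rw [b1, b2]
        exact e6
    linarith)
  have n1 := CH_le_add h0 (fun ω => ⌊(2 : ℝ) ^ (s₁ * J) * X ω⌋)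
    (fun ω => ⌊(2 : ℝ) ^ (P * J) * X ω⌋) Y
  have n2 := dig_few hcl X (s := s₁ * J) (t := P * J) (μ := μ₂ * J) (mul_nonneg hμ₂ hJ0) (by
    have := mul_le_mul_of_nonneg_right c6 hJ0
    linarith) (fun ω => (⌊(2 : ℝ) ^ (P * J) * X ω⌋, Y ω)) (fun ω ω' _ _ e =>
      (Prod.ext_iff.mp e).1)
  have n3 : δ * J = d * J - ((P - sn (k + 1) v) * Real.log 2 - κ) * J -
      (μ₁ * J * Real.log 2 + μ₂ * J * Real.log 2) := by
    rw [hδ]
    ring
  rw [n3] at hcJ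
  linarith

end Pool.STR65
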