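import Pool.Agent.H65.STR.Imn
import Pool.Agent.H46.TE.Flr
import Pool.Agent.H18.PN.Pdc
import Pool.Agent.H80.ASB.Cb1

/-!
# The images are full at the records

`imN_rate`: `ImN` from the rate of the last coordinate alone. `imN_rec`: at the records near a window of
full rate. `altE_alc`: the labels of a record have the exponents of the rate.
-/

set_option autoImplicit false

namespace Pool.STR65

open Finset Real MvPolynomial
open Pool.Agent.H49.Ent Pool.Agent.H32.Dense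
open Pool.STK hiding pr2
open Pool.KA Pool.KSAT Pool.K2S Pool.PB Pool.S6C
open Pool.GEN Pool.LA91 Pool.RCD Pool.OWN68 Pool.PKG
open Pool.V0F (cR mx_cR)
open Pool.UNJ (ceI)
open Pool.TE46 (Fuf fuf_alt)
open Pool.STR16 (OkT hK hT ImN)
open Pool.ALT
open Pool.ASM (AdmN)
open Pool.LEV (Law)

variable {m : ℕ}

/-- A trivial case: no digits. -/
theorem imN_triv {S : PCl m} (hpos : ∀ (τ : ℝ) (J : ℕ) (F : Fam m J) (A : F.Ω → Prop),
      S.St τ J F A → 0 < Pe F.p A) {c : ℕ → Fin m} {k D : ℕ} {sn : ℕ → ℝ → ℝ}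
    {a φ ρ₀ room v P κ ϖ : ℝ} {e₀ : ℕ → ℝ} (hϖ : 0 < ϖ)
    (h : (P - sn (k + 1) v) * Real.log 2 ≤ κ) : ImN S c k D a φ e₀ ρ₀ sn ϖ room v P κ := by
  refine Bas.mono 0 (Pool.STAT.NL.Bas.frac (pos_bas hpos) hϖ) ?_
  rintro J - F A H Hl hOk B hB hBP V z z' hz K hKb Δ Y β hβ
  have h0 := (isLaw_cond F.isLaw (H B hB hBP)).nonneg
  have hJ0 : (0 : ℝ) ≤ J := Nat.cast_nonneg J
  have h1 := (CH_nonneg h0 Y _).trans hβ
  have h2 := CH_nonneg h0 (fun ω => ⌊(2 : ℝ) ^ (P * J) * hK c k ⌊a * J⌋₊ Hl z' K ω⌋) Y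
  have h3 : ((P - sn (k + 1) v) * Real.log 2 - κ) * J ≤ 0 :=
    mul_nonpos_of_nonpos_of_nonneg (by linarith) hJ0
  linarith

/-- **The images are full**, from the rate of the second place alone. -/
theorem imN_rate {S : PCl m} (hpos : ∀ (τ : ℝ) (J : ℕ) (F : Fam m J) (A : F.Ω → Prop),
      S.St τ J F A → 0 < Pe F.p A) {c : ℕ → Fin m} {k D K' k₀ : ℕ} {sn : ℕ → ℝ → ℝ}
    {s g φr el dl eF ρF πF : ℝ}
    (hAt : ∀ j ≥ k₀, AltAt S ((range (k + 1)).image c) ((range k).image c) (c (k + 1)) K' eF ρF πF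
      (sn (k + 1)) g φr el j) (hel : 0 ≤ el) (hdl : 0 ≤ dl) (hs : 0 < s)
    (hrate : s * Real.log 2 - dl ≤ φr) {a v P Y Z ε' κ φ ρ₀ room μ ϖ : ℝ} {e₀ : ℕ → ℝ}
    (hav : a ≤ v) (hZ : 0 ≤ Z) (hP : P ≤ sn (k + 1) v + Z) (hv : |v - g| ≤ Y)
    (hvz : |v + Z / s - g| ≤ Y) (hv1 : v + Z / s ≤ 1) (hY : Y ≤ (1 / 2) ^ k₀)
    (hmono : ∀ x y, v ≤ x → x ≤ y → y ≤ v + Z / s → sn (k + 1) x ≤ sn (k + 1) y)
    (hlin : ∀ x, v ≤ x → x ≤ v + Z / s → |sn (k + 1) x - sn (k + 1) v - s * (x - v)| ≤ ε')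
    (hκ : dl * (Z / s) + 2 * el * Y + ε' * Real.log 2 < κ)
    (hD : D ≤ K') (hK1 : 1 ≤ K') (hϖ : 0 < ϖ) (hμ : 0 < μ) (he₀ : 0 ≤ e₀ k)
    (he₁ : 0 ≤ e₀ (k + 1)) (hρ : ρ₀ ≤ ρF) (c1 : e₀ (k + 1) + μ ≤ eF)
    (c2 : room + sn k a - sn (k + 1) a + e₀ k + μ ≤ eF) (c3 : max 0 πF + φ + μ ≤ sn (k + 1) a)
    (c4 : max 0 πF + room + φ + μ ≤ sn (k + 1) a) :
    ImN S c k D a φ e₀ ρ₀ sn ϖ room v P κ := by
  have hlog : 0 < Real.log 2 := Real.log_pos (by norm_num)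
  have hZs : 0 ≤ Z / s := div_nonneg hZ hs.le
  have hε' : 0 ≤ ε' := (abs_nonneg _).trans (hlin v le_rfl (by linarith))
  have hY0 : 0 ≤ Y := (abs_nonneg _).trans hv
  rcases le_or_gt P (sn (k + 1) v) with h1 | h1
  · refine imN_triv hpos hϖ ?_
    have h2 : (P - sn (k + 1) v) * Real.log 2 ≤ 0 :=
      mul_nonpos_of_nonpos_of_nonneg (by linarith) hlog.le
    have h3 : 0 ≤ dl * (Z / s) + 2 * el * Y + ε' * Real.log 2 := by positivity
    linarith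
  obtain ⟨x, hx⟩ : ∃ x : ℝ, x = P - sn (k + 1) v := ⟨_, rfl⟩
  have hx0 : 0 < x := by rw [hx]; linarith
  have hxZ : x ≤ Z := by rw [hx]; linarith
  obtain ⟨o, ho⟩ : ∃ o : ℝ, o = v + x / s := ⟨_, rfl⟩
  have hxs : 0 < x / s := div_pos hx0 hs
  have hxs1 : x / s ≤ Z / s := div_le_div_of_nonneg_right hxZ hs.le
  have hvo : v < o := by rw [ho]; linarith
  have hoz : o ≤ v + Z / s := by rw [ho]; linarith
  have hso : s * (o - v) = x := by
    rw [ho, add_sub_cancel_left]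
    field_simp
  have hog : |o - g| ≤ Y := by
    have a1 := abs_le.1 hv
    have a2 := abs_le.1 hvz
    rw [abs_le]
    constructor <;> linarith
  have hφx : x * Real.log 2 - dl * (Z / s) ≤ φr * (o - v) := by
    have b1 : (s * Real.log 2 - dl) * (o - v) ≤ φr * (o - v) :=
      mul_le_mul_of_nonneg_right hrate (by linarith)
    have b2 : (s * Real.log 2 - dl) * (o - v) = s * (o - v) * Real.log 2 - dl * (o - v) := by ring
    have b3 : dl * (o - v) ≤ dl * (Z / s) := mul_le_mul_of_nonneg_left (by linarith) hdl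
    rw [b2, hso] at b1
    linarith
  obtain ⟨d, hd1, hd2⟩ := exists_between (show x * Real.log 2 - κ + ε' * Real.log 2 <
    x * Real.log 2 - dl * (Z / s) - 2 * el * Y by linarith)
  obtain ⟨s₀, s₁, f1, f2, f3⟩ := fuf_alt hpos hAt hel hav hvo (hoz.trans hv1) hv hog hY
    (fun x y a1 a2 a3 => hmono x y a1 a2 (a3.trans hoz)) (d := d) (by linarith)
  have h5 := (abs_le.1 (hlin o hvo.le hoz)).2
  rw [hso] at h5
  refine imN_fuf hpos f3 hD hK1 hϖ hμ le_rfl hε' he₀ he₁ hρ c1 c2 c3 c4 (by linarith) (by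
    rw [hx] at h5
    linarith) ?_
  rw [← hx]
  linarith

/-- The labels of a record have the exponents of the rate. -/
theorem altE_alc {S : PCl m} {c : ℕ → Fin m} {r D K : ℕ} {L : ℕ → ℝ → ℝ → ℝ}
    {e₀ ρ₀ π₀ μ w : ℝ} (h : AlC S c r D L e₀ μ w) (hμ : 0 < μ) (hρ₀ : L r w w + μ ≤ ρ₀)
    (hπ₀ : π₀ + μ ≤ L (r + 1) w w) (hK : D ≤ K) :
    AltE S ((range (r + 1)).image c) (c (r + 1)) K e₀ ρ₀ π₀ w :=
  h.lb hρ₀ hK hμ le_rfl (by linarith)

/-- **The images are full at the records** near a window `g` of full rate. `r`: the place of `u`,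
`r + 1`: the last place. `el`: the error of the rate, `δ`, `K'`: the slack and the complexity of the
full rate; `eF`, `ρF`, `πF`: the exponents of the rate, chosen at `g`. `Kw`: the room of the windows,
in units `q`; `η q`: the error of the images. -/
theorem imN_rec (r D : ℕ) {s K₀ Kw η : ℝ} (hs : 0 < s) (hK₀ : 0 ≤ K₀) (hKw : 0 < Kw)
    (hη : 0 < η) : ∃ (δ ε₀ : ℝ) (el : ℚ), 0 < δ ∧ 0 < ε₀ ∧ 0 < el ∧ ∀ K' : ℕ, 1 ≤ K' → D ≤ K' →
    ∀ {Sa : PCl (r + 2)} {P : List (Fin (r + 2)) × Fin (r + 2) → ℝ → ℝ → ℝ} {θ : ℝ}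
    {c : ℕ → Fin (r + 2)} {Pt : ℝ → ℝ → ℝ} {rt : ℝ → ℝ} {L T : ℕ → ℝ → ℝ → ℝ} {κ : ℕ → Kg}
    {G : Set ℝ} {g : ℝ} {k₀ DF : ℕ} {dF : ℝ}, dF ≤ δ → K' ≤ DF → g ∈ G →
    AltR ((range r, K'), el) k₀ Sa P θ c Pt rt L T κ G g →
    FulR (AdmN r) (s * Real.log 2) dF DF Sa P θ c Pt rt L T κ G g →
    ∃ eF ρF πF : ℝ, 0 ≤ eF ∧ ρF + (1 / 2) ^ k₀ ≤ 1 ∧
      (∀ w ∈ G, |w - g| ≤ (1 / 2) ^ k₀ → AltC Sa c r L eF ρF πF ((1 / 2) ^ k₀) w) ∧
    ∃ q₁ : ℝ, 0 < q₁ ∧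
    ∀ {S : PCl (r + 2)} {al : ℝ} {g₀ : ℝ → ℝ}
    {P₂ : ℕ → List (Fin (r + 2)) × Fin (r + 2) → ℝ → ℝ → ℝ} {θ₂ Eb e₂ : ℕ → ℝ} {h : ℝ}
    {Sl : ℕ → ℝ} {S₀ N : ℕ} {A V : ℕ → ℝ} {S₂ N' : ℕ} {V' : ℕ → ℝ} {K ε q t : ℝ},
    SubC S Sa →
    RecG S al g₀ P θ P₂ θ₂ Eb e₂ c Pt rt h K₀ g L T Sl κ G S₀ N A V S₂ N' V' K ε q t →
    Sl (r + 1) = s → q < q₁ → ε ≤ ε₀ → Kw + Kw / s ≤ K →
    (∃ w₀ : ℝ, 0 < w₀ ∧ w₀ < g ∧
      AltE S ((range (r + 1)).image c) (c (r + 1)) K' eF ρF πF w₀) →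
    ∀ {a v P' φ room ρ₀ μ ϖ : ℝ} {e₀ : ℕ → ℝ}, a ≤ v → |v - t| ≤ Kw * q →
    P' ≤ L (r + 1) v v + Kw * q → 0 < ϖ → 0 < μ → 0 ≤ e₀ r → 0 ≤ e₀ (r + 1) → ρ₀ ≤ ρF →
    e₀ (r + 1) + μ ≤ eF → room + L r a a - L (r + 1) a a + e₀ r + μ ≤ eF →
    max 0 πF + φ + μ ≤ L (r + 1) a a → max 0 πF + room + φ + μ ≤ L (r + 1) a a →
    ImN S c r D a φ e₀ ρ₀ (fun l v => L l v v) ϖ room v P' (η * q) := by
  obtain ⟨W, hW⟩ : ∃ W : ℝ, W = Kw + Kw / s + K₀ + 1 := ⟨_, rfl⟩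
  have hKs : 0 < Kw / s := div_pos hKw hs
  have hW1 : 1 ≤ W := by rw [hW]; linarith
  have hW0 : 0 < W := by linarith
  obtain ⟨el, hel0, hel1⟩ := exists_rat_btwn (show (0 : ℝ) < η / (8 * W) by positivity)
  have hel : (0 : ℚ) < el := by exact_mod_cast hel0
  rw [lt_div_iff₀ (by positivity)] at hel1
  have hlog : 0 < Real.log 2 := Real.log_pos (by norm_num)
  have hlog1 : Real.log 2 ≤ 1 := by
    have := Real.log_two_lt_d9
    linarith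
  refine ⟨η / (8 * W), η / 8, el, by positivity, by positivity, hel, fun K' hK1 hDK => ?_⟩
  intro Sa P θ c Pt rt L T κ G g k₀ DF dF hdF hKD hg hA hF
  have hβ : s * Real.log 2 - η / (8 * W) ≤ s * Real.log 2 - dF := by linarith
  obtain ⟨eF, ρF, πF, h1, h2, h3, h4⟩ := alt_ful hel hA hg (β := s * Real.log 2)
    (δ := dF) hKD (fun i a1 a2 a3 a4 a5 a6 a7 a8 => hF i ⟨a1, a2, a3, a4, a5, a6, a7⟩ a8)
  refine ⟨eF, ρF, πF, h1, h2, h3, (1 / 2) ^ k₀ / W, by positivity, ?_⟩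
  intro S al g₀ P₂ θ₂ Eb e₂ h Sl S₀ N A V S₂ N' V' K ε q t hS R hSl hqq hε hK hE
    a v P' φ room ρ₀ μ ϖ e₀ hav hvt hP' hϖ hμ he₀ he₁ hρ c1 c2 c3 c4
  obtain ⟨w₀, hw0, hwg, hE⟩ := hE
  obtain ⟨φr, hφr, hAt⟩ := h4 S R.ne hS w₀ hw0 hwg hE
  have hq := R.q0
  rw [lt_div_iff₀ hW0] at hqq
  have hZs : Kw * q / s = Kw / s * q := by ring
  have hKwq : (Kw + Kw / s) * q ≤ K * q := mul_le_mul_of_nonneg_right hK hq.le
  have hKq : 0 < Kw * q := mul_pos hKw hq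
  have hKsq : 0 < Kw / s * q := mul_pos hKs hq
  have hvt' := abs_le.1 hvt
  have hng := abs_le.1 R.near
  have hin : ∀ x, v ≤ x → x ≤ v + Kw * q / s → |x - t| ≤ K * q := fun x x1 x2 => by
    rw [hZs] at x2
    rw [abs_le]
    constructor <;> linarith
  have hdv := abs_le.1 (R.dL (r + 1) (by omega) v (hin v le_rfl (by rw [hZs]; linarith)))
  have ht0 := R.t0
  have ht1 := R.t1
  have hε0 : 0 ≤ ε * q := (abs_nonneg _).trans (R.dL (r + 1) (by omega) v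
    (hin v le_rfl (by rw [hZs]; linarith)))
  have hlw := R.lawL (r + 1) (by omega)
  refine imN_rate R.pos (s := s) (g := g) (φr := φr) (el := el) (dl := η / (8 * W) + el) (k₀ := k₀)
    (fun j hj => (hAt j hj).sub hS) hel0.le (by positivity) hs (by linarith)
    (Y := (Kw + Kw / s + K₀) * q) (Z := Kw * q) (ε' := 2 * (ε * q)) hav hKq.le hP' ?_ ?_ ?_ ?_ ?_ ?_
    ?_ hDK hK1 hϖ hμ he₀ he₁ hρ c1 c2 c3 c4
  · rw [abs_le]
    constructor <;> linarith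
  · rw [hZs, abs_le]
    constructor <;> linarith
  · rw [hZs]
    linarith
  · have : q * W = (Kw + Kw / s + K₀) * q + q := by rw [hW]; ring
    linarith
  · intro x y x1 x2 x3
    have y1 := abs_le.1 (hin x x1 (x2.trans x3))
    have y2 := abs_le.1 (hin y (x1.trans x2) x3)
    exact (hlw.mono_a x y x (by linarith) le_rfl x2 (by linarith)).trans
      (hlw.mono_w y x y (by linarith) x2 le_rfl (by linarith))
  · intro x x1 x2
    have y1 := abs_le.1 (R.dL (r + 1) (by omega) x (hin x x1 x2))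
    rw [hSl] at y1 hdv
    have y2 : s * (x - v) = s * (x - t) - s * (v - t) := by ring
    rw [abs_le]
    constructor <;> linarith [y1.1, y1.2, hdv.1, hdv.2]
  · have e1 : (η / (8 * W) + el) * (Kw * q / s) ≤ (η / 8 / W + η / 8 / W) * (Kw / s * q) := by
      rw [hZs]
      refine mul_le_mul_of_nonneg_right ?_ hKsq.le
      have e2 : η / (8 * W) = η / 8 / W := by rw [div_div]
      have e3 : (el : ℝ) ≤ η / 8 / W := by
        rw [le_div_iff₀ hW0]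
        linarith
      linarith
    have e4 : (η / 8 / W + η / 8 / W) * (Kw / s * q) ≤ η / 4 * q := by
      have e5 : Kw / s ≤ W := by rw [hW]; linarith
      have e6 : Kw / s / W ≤ 1 := (div_le_one hW0).2 e5
      have e7 : (η / 8 / W + η / 8 / W) * (Kw / s * q) = η / 4 * q * (Kw / s / W) := by ring
      rw [e7]
      have : 0 ≤ η / 4 * q := by positivity
      exact mul_le_of_le_one_right this e6
    have e8 : 2 * (el : ℝ) * ((Kw + Kw / s + K₀) * q) ≤ η / 4 * q := by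
      have e9 : (el : ℝ) * (Kw + Kw / s + K₀) ≤ el * W := mul_le_mul_of_nonneg_left (by
        rw [hW]; linarith) hel0.le
      have e10 : (el : ℝ) * (Kw + Kw / s + K₀) ≤ η / 8 := by linarith
      have := mul_le_mul_of_nonneg_right e10 hq.le
      linarith
    have e11 : 2 * (ε * q) * Real.log 2 ≤ η / 4 * q := by
      have e12 : 2 * (ε * q) * Real.log 2 ≤ 2 * (ε * q) * 1 :=
        mul_le_mul_of_nonneg_left hlog1 (by linarith)
      have e13 := mul_le_mul_of_nonneg_right hε hq.le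
      linarith
    have e14 : 0 < η * q := mul_pos hη hq
    linarith

end Pool.STR65
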